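import Pool.Agent.H947R2.DS.Stubs

set_option autoImplicit false
open Finset
open scoped Pointwise

namespace H947DS

theorem BOX_nz {n : ℕ} (x : Fin n → ℤ) : nz (fun i => (x i).natAbs) = nzZ x := by
  unfold nz nzZ
  congr 1
  apply Finset.filter_congr
  intro i _
  exact not_congr Int.natAbs_eq_zero

theorem BOX_sign {s z : ℤ} (hs : s = 1 ∨ s = -1) (h : 0 ≤ s * z) : s * (z.natAbs : ℤ) = z := by
  rcases hs with rfl | rfl
  · omega
  · omega

theorem BOX_proof (hA : St_A) (hI : St_I) (hO : St_ORTH) : St_BOX := by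
  classical
  intro n S K hS hB hK
  have hN0 : (0 : ℝ) < S.card := by exact_mod_cast hS.card_pos
  have hK1 : 1 ≤ K := by
    have h1 : S.card ≤ (S + S).card := Finset.card_le_card_add_right hS
    have h2 : (S.card : ℝ) ≤ (S + S).card := by exact_mod_cast h1
    by_contra h
    push Not at h
    have : K * S.card < 1 * S.card := mul_lt_mul_of_pos_right h hN0
    linarith
  have hK0 : 0 < K := by linarith
  obtain ⟨S', hS'⟩ : ∃ S', S' = S.filter (fun x => (2 : ℝ) ^ (nzZ x) ≤ 2 * K) := ⟨_, rfl⟩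
  have hcompl : 2 * K * (S.filter (fun x => ¬ (2 : ℝ) ^ (nzZ x) ≤ 2 * K)).card ≤ K * S.card := by
    have h1 : ∑ x ∈ S, (2 : ℝ) ^ (nzZ x) ≤ (S + S).card := by exact_mod_cast hI n S hB
    have h2 : ∑ x ∈ S.filter (fun x => ¬ (2 : ℝ) ^ (nzZ x) ≤ 2 * K), (2 : ℝ) ^ (nzZ x) ≤
        ∑ x ∈ S, (2 : ℝ) ^ (nzZ x) :=
      Finset.sum_le_sum_of_subset_of_nonneg (Finset.filter_subset _ _)
        (fun _ _ _ => by positivity)
    have h3 : ∑ x ∈ S.filter (fun x => ¬ (2 : ℝ) ^ (nzZ x) ≤ 2 * K), (2 * K) ≤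
        ∑ x ∈ S.filter (fun x => ¬ (2 : ℝ) ^ (nzZ x) ≤ 2 * K), (2 : ℝ) ^ (nzZ x) := by
      apply Finset.sum_le_sum
      intro x hx
      rw [Finset.mem_filter, not_le] at hx
      exact hx.2.le
    rw [Finset.sum_const, nsmul_eq_mul] at h3
    linarith
  have hcard : (S.card : ℝ) ≤ 2 * S'.card := by
    have h1 := Finset.card_filter_add_card_filter_not (s := S) (fun x => (2 : ℝ) ^ (nzZ x) ≤ 2 * K)
    rw [← hS'] at h1
    have h2 : (S'.card : ℝ) + (S.filter (fun x => ¬ (2 : ℝ) ^ (nzZ x) ≤ 2 * K)).card = S.card := by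
      exact_mod_cast h1
    have h3 : 2 * (S.filter (fun x => ¬ (2 : ℝ) ^ (nzZ x) ≤ 2 * K)).card ≤ (S.card : ℝ) := by
      have h4 : K * (2 * (S.filter (fun x => ¬ (2 : ℝ) ^ (nzZ x) ≤ 2 * K)).card) ≤ K * S.card := by
        linarith
      exact le_of_mul_le_mul_left h4 hK0
    linarith
  have hS'0 : (0 : ℝ) < S'.card := by linarith
  have hS'ne : S'.Nonempty := by
    rw [← Finset.card_pos]
    exact_mod_cast hS'0
  obtain ⟨x1, hx1, hd⟩ := Finset.exists_mem_eq_sup S' hS'ne nzZ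
  obtain ⟨d, hdd⟩ : ∃ d, d = S'.sup nzZ := ⟨_, rfl⟩
  have h2d : (2 : ℝ) ^ d ≤ 2 * K := by
    rw [hdd, hd]
    rw [hS', Finset.mem_filter] at hx1
    exact hx1.2
  obtain ⟨σ, hσ, hcσ⟩ := hO n d S' (fun x hx => by rw [hdd]; exact Finset.le_sup hx)
  obtain ⟨S'', hS''⟩ : ∃ S'', S'' = S'.filter (fun x => ∀ i, 0 ≤ σ i * x i) := ⟨_, rfl⟩
  rw [← hS''] at hcσ
  have hsubS : ∀ x ∈ S'', x ∈ S := by
    intro x hx
    rw [hS'', Finset.mem_filter, hS', Finset.mem_filter] at hx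
    exact hx.1.1
  have h2K : ∀ x ∈ S'', (2 : ℝ) ^ (nzZ x) ≤ 2 * K := by
    intro x hx
    rw [hS'', Finset.mem_filter, hS', Finset.mem_filter] at hx
    exact hx.1.2
  have hsgn : ∀ x ∈ S'', ∀ i, σ i * ((x i).natAbs : ℤ) = x i := by
    intro x hx i
    rw [hS'', Finset.mem_filter] at hx
    exact BOX_sign (hσ i) (hx.2 i)
  have hc2 : (S'.card : ℝ) ≤ 2 * K * S''.card := by
    have h1 : (S'.card : ℝ) ≤ 2 ^ d * S''.card := by exact_mod_cast hcσ
    exact h1.trans (mul_le_mul_of_nonneg_right h2d (Nat.cast_nonneg _))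
  have hc3 : (S.card : ℝ) ≤ 4 * K * S''.card := by linarith
  have hS''0 : (0 : ℝ) < S''.card := by
    by_contra h
    push Not at h
    have : 4 * K * (S''.card : ℝ) ≤ 0 := mul_nonpos_of_nonneg_of_nonpos (by linarith) h
    linarith
  have hS''ne : S''.Nonempty := by
    rw [← Finset.card_pos]
    exact_mod_cast hS''0
  obtain ⟨P, hP⟩ : ∃ P, P = S''.image (fun (x : Fin n → ℤ) (i : Fin n) => (x i).natAbs) :=
    ⟨_, rfl⟩
  have hPcard : P.card = S''.card := by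
    rw [hP]
    apply Finset.card_image_of_injOn
    intro x hx y hy hxy
    funext i
    rw [← hsgn x hx i, ← hsgn y hy i]
    have := congrFun hxy i
    simp only at this
    rw [this]
  have hPP : (P + P).card ≤ (S + S).card := by
    apply Finset.card_le_card_of_injOn (fun z i => σ i * ((z i : ℕ) : ℤ))
    · intro z hz
      rw [Finset.mem_coe, Finset.mem_add] at hz
      obtain ⟨p, hp, q, hq, rfl⟩ := hz
      rw [hP, Finset.mem_image] at hp hq
      obtain ⟨x, hx, rfl⟩ := hp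
      obtain ⟨y, hy, rfl⟩ := hq
      rw [Finset.mem_coe, Finset.mem_add]
      refine ⟨x, hsubS x hx, y, hsubS y hy, ?_⟩
      funext i
      show x i + y i = σ i * (((x i).natAbs + (y i).natAbs : ℕ) : ℤ)
      rw [Nat.cast_add, mul_add, hsgn x hx i, hsgn y hy i]
    · intro z _ z' _ h
      funext i
      have h1 : σ i * ((z i : ℕ) : ℤ) = σ i * ((z' i : ℕ) : ℤ) := congrFun h i
      rcases hσ i with h2 | h2
      · rw [h2] at h1
        omega
      · rw [h2] at h1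
        omega
  obtain ⟨x0, hx0, hmax⟩ := Finset.exists_max_image S''
    (fun x : Fin n → ℤ => ∏ i, (|(x i : ℝ)| + 1)) hS''ne
  obtain ⟨F, hF⟩ : ∃ F : ℝ, F = ∏ i, (|(x0 i : ℝ)| + 1) := ⟨_, rfl⟩
  have hF0 : 0 ≤ F := by
    rw [hF]
    positivity
  have hPF : ∀ p ∈ P, ∏ i, ((p i : ℝ) + 1) ≤ F := by
    intro p hp
    rw [hP, Finset.mem_image] at hp
    obtain ⟨x, hx, rfl⟩ := hp
    rw [hF]
    have := hmax x hx
    simp only [Nat.cast_natAbs, Int.cast_abs] at this ⊢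
    exact this
  have hPne : P.Nonempty := by
    rw [hP]
    exact hS''ne.image _
  have hAA := hA n P P F F hPne hPne hPF hPF
  rw [Real.sqrt_mul_self hF0] at hAA
  have hlow : (P.card : ℝ) * (1 / (4 * K ^ 2)) ≤ ∑ x ∈ P, (1 / 4 : ℝ) ^ (nz x) := by
    have : ∑ x ∈ P, (1 / (4 * K ^ 2)) ≤ ∑ x ∈ P, (1 / 4 : ℝ) ^ (nz x) := by
      apply Finset.sum_le_sum
      intro p hp
      rw [hP, Finset.mem_image] at hp
      obtain ⟨x, hx, rfl⟩ := hp
      rw [BOX_nz]
      have h1 := h2K x hx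
      have h2 : (0 : ℝ) < 2 ^ nzZ x := by positivity
      have h3 : (1 / 4 : ℝ) ^ nzZ x = 1 / ((2 : ℝ) ^ nzZ x) ^ 2 := by
        rw [div_pow, one_pow, ← pow_mul, mul_comm, pow_mul]
        norm_num
      rw [h3]
      apply one_div_le_one_div_of_le (by positivity)
      have h4 : ((2 : ℝ) ^ nzZ x) ^ 2 ≤ (2 * K) ^ 2 := pow_le_pow_left₀ h2.le h1 2
      calc ((2 : ℝ) ^ nzZ x) ^ 2 ≤ (2 * K) ^ 2 := h4
        _ = 4 * K ^ 2 := by ring
    rw [Finset.sum_const, nsmul_eq_mul] at this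
    exact this
  refine ⟨x0, hsubS x0 hx0, h2K x0 hx0, ?_⟩
  rw [← hF]
  rw [hPcard] at hlow
  have h5 : (S.card : ℝ) / (16 * K ^ 3) ≤ ∑ x ∈ P, (1 / 4 : ℝ) ^ (nz x) := by
    refine le_trans ?_ hlow
    rw [div_le_iff₀ (by positivity)]
    have : (S''.card : ℝ) * (1 / (4 * K ^ 2)) * (16 * K ^ 3) = 4 * K * S''.card := by
      field_simp
      ring
    rw [this]
    exact hc3
  have h6 : (S.card : ℝ) / (16 * K ^ 3) * (S.card / (16 * K ^ 3)) ≤ K * S.card * F := by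
    have h7 : (0 : ℝ) ≤ S.card / (16 * K ^ 3) := by positivity
    refine (mul_le_mul h5 h5 h7 (h7.trans h5)).trans (hAA.trans ?_)
    have h8 : ((P + P).card : ℝ) ≤ (S + S).card := by exact_mod_cast hPP
    exact mul_le_mul_of_nonneg_right (h8.trans hK) hF0
  have h9 : (S.card : ℝ) * S.card ≤ S.card * (256 * K ^ 7 * F) := by
    have h10 : (S.card : ℝ) * S.card =
        S.card / (16 * K ^ 3) * (S.card / (16 * K ^ 3)) * (256 * K ^ 6) := by
      field_simp
      ring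
    rw [h10]
    calc (S.card : ℝ) / (16 * K ^ 3) * (S.card / (16 * K ^ 3)) * (256 * K ^ 6)
        ≤ K * S.card * F * (256 * K ^ 6) := mul_le_mul_of_nonneg_right h6 (by positivity)
      _ = S.card * (256 * K ^ 7 * F) := by ring
  exact le_of_mul_le_mul_left h9 hN0

end H947DS
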